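import Pool.Agent.H54.EP.Three

set_option autoImplicit false

/-!
# The multiplicative stabiliser of the closure of the entropy power region `Γ(3)`

The set `P` of the monotone functions `μ ≥ 0` on the nonempty subsets of `[3]` with
`μ(S ∪ T) μ(S ∩ T) ≤ μ(S) μ(T)` whenever `S` and `T` meet contains the closure of `Γ(3)`, and it is exactly
the set of the `μ` with `μ v ∈ cl Γ(3)` for all `v ∈ cl Γ(3)`; for `μ ∈ P` all the functions
`S ↦ (∑_{i ∈ S} p_i) μ(S)`, `p ≥ 0`, lie in the closure of `Γ(3)`. The definitions of the entropy power region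
are those of `Pool/Agent/Results/MP_04c77c_pr/NotConvex.lean`.
-/

open MeasureTheory ProbabilityTheory

namespace Pool.Agent.Results.MP_04c77c_pr.GammaThree

open Pool.Agent.Results.MP_04c77c_pr.NotConvex Pool.Agent.H54.EP

/-- `μ ≥ 0` is monotone and `μ(S ∪ T) μ(S ∩ T) ≤ μ(S) μ(T)` whenever `S` and `T` meet. -/
def MultPoly {n : ℕ} (μ : {S : Finset (Fin n) // S.Nonempty} → ℝ) : Prop :=
  (∀ S, 0 ≤ μ S) ∧
  (∀ S T : {S : Finset (Fin n) // S.Nonempty}, S.1 ⊆ T.1 → μ S ≤ μ T) ∧
  ∀ (S T : {S : Finset (Fin n) // S.Nonempty}) (h : (S.1 ∩ T.1).Nonempty),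
    μ ⟨S.1 ∪ T.1, S.2.mono Finset.subset_union_left⟩ * μ ⟨S.1 ∩ T.1, h⟩ ≤ μ S * μ T

lemma region_multPoly {n : ℕ} {v : {S : Finset (Fin n) // S.Nonempty} → ℝ}
    (hv : v ∈ EntropyPowerRegion n) : MultPoly v := by
  refine ⟨fun S => (region_pos hv S).le, ?_, ?_⟩
  · intro S T hST
    simp only [EntropyPowerRegion, Set.mem_iUnion] at hv
    obtain ⟨d, -, hv⟩ := hv
    rw [gamma_iff] at hv
    obtain ⟨μ, hμ, hfin, hval⟩ := hv
    rw [hval, hval]
    unfold entropyPower
    apply Real.exp_le_exp.2
    apply mul_le_mul_of_nonneg_left (ent_mono hμ hfin S.2 hST)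
    positivity
  · intro S T h
    simp only [EntropyPowerRegion, Set.mem_iUnion] at hv
    obtain ⟨d, -, hv⟩ := hv
    rw [gamma_iff] at hv
    obtain ⟨μ, hμ, hfin, hval⟩ := hv
    rw [hval, hval, hval, hval]
    unfold entropyPower
    rw [← Real.exp_add, ← Real.exp_add, ← mul_add, ← mul_add]
    apply Real.exp_le_exp.2
    apply mul_le_mul_of_nonneg_left (ent_sub hμ hfin h)
    positivity

lemma closure_multPoly {n : ℕ} {v : {S : Finset (Fin n) // S.Nonempty} → ℝ}
    (hv : v ∈ closure (EntropyPowerRegion n)) : MultPoly v := by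
  have hcl : IsClosed {v : {S : Finset (Fin n) // S.Nonempty} → ℝ | MultPoly v} := by
    unfold MultPoly
    simp only [Set.ofPred_and, Set.ofPred_forall]
    refine IsClosed.inter (isClosed_iInter fun S => isClosed_le continuous_const (continuous_apply S))
      (IsClosed.inter (isClosed_iInter fun S => isClosed_iInter fun T => isClosed_iInter fun _ =>
        isClosed_le (continuous_apply S) (continuous_apply T))
      (isClosed_iInter fun S => isClosed_iInter fun T => isClosed_iInter fun h =>
        isClosed_le ?_ ?_))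
    · exact (continuous_apply _).mul (continuous_apply _)
    · exact (continuous_apply _).mul (continuous_apply _)
  exact closure_minimal (fun w hw => region_multPoly hw) hcl hv

lemma multPoly_ineq {μ : {S : Finset (Fin 3) // S.Nonempty} → ℝ} (h : MultPoly μ) : Ineq μ := by
  obtain ⟨-, h2, h3⟩ := h
  refine ⟨h2 _ _ (by decide), h2 _ _ (by decide), h2 _ _ (by decide), ?_, ?_, ?_⟩
  · have := h3 B01 B02 (by decide)
    have e1 : (⟨B01.1 ∪ B02.1, B01.2.mono Finset.subset_union_left⟩ :
      {S : Finset (Fin 3) // S.Nonempty}) = C3 := Subtype.ext (by decide)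
    have e2 : (⟨B01.1 ∩ B02.1, by decide⟩ : {S : Finset (Fin 3) // S.Nonempty}) = A0 :=
      Subtype.ext (by decide)
    rw [e1, e2] at this
    exact this
  · have := h3 B01 B12 (by decide)
    have e1 : (⟨B01.1 ∪ B12.1, B01.2.mono Finset.subset_union_left⟩ :
      {S : Finset (Fin 3) // S.Nonempty}) = C3 := Subtype.ext (by decide)
    have e2 : (⟨B01.1 ∩ B12.1, by decide⟩ : {S : Finset (Fin 3) // S.Nonempty}) = A1 :=
      Subtype.ext (by decide)
    rw [e1, e2] at this
    exact this
  · have := h3 B02 B12 (by decide)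
    have e1 : (⟨B02.1 ∪ B12.1, B02.2.mono Finset.subset_union_left⟩ :
      {S : Finset (Fin 3) // S.Nonempty}) = C3 := Subtype.ext (by decide)
    have e2 : (⟨B02.1 ∩ B12.1, by decide⟩ : {S : Finset (Fin 3) // S.Nonempty}) = A2 :=
      Subtype.ext (by decide)
    rw [e1, e2] at this
    exact this

/-- **Main result.** For a function `μ` on the nonempty subsets of `[3]` the following are equivalent:
`μ` is nonnegative, monotone and multiplicatively submodular on meeting pairs; `S ↦ (∑_{i ∈ S} p_i) μ(S)`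
is in the closure of `Γ(3)` for all `p ≥ 0`; `μ v` is in the closure of `Γ(3)` for all `v` there; for every
`i` some point of the closure of `Γ(3)` agrees with `μ` on the sets which contain `i`. -/
theorem result (μ : {S : Finset (Fin 3) // S.Nonempty} → ℝ) :
    List.TFAE [
      MultPoly μ,
      ∀ p : Fin 3 → ℝ, (∀ i, 0 ≤ p i) →
        (fun S : {S : Finset (Fin 3) // S.Nonempty} => (∑ i ∈ S.1, p i) * μ S) ∈
          closure (EntropyPowerRegion 3),
      ∀ v ∈ closure (EntropyPowerRegion 3), (fun S => μ S * v S) ∈ closure (EntropyPowerRegion 3),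
      ∀ i : Fin 3, ∃ v ∈ closure (EntropyPowerRegion 3),
        ∀ S : {S : Finset (Fin 3) // S.Nonempty}, i ∈ S.1 → v S = μ S] := by
  tfae_have 1 → 3 := by
    intro h v hv
    have := stab h.1 h.2.1 (multPoly_ineq h) hv
    simpa only [mul_comm] using this
  tfae_have 3 → 2 := by
    intro h p hp
    have := h _ (clos_gauss p hp)
    simpa only [mul_comm] using this
  tfae_have 2 → 4 := by
    intro h i
    refine ⟨_, h (Pi.single i 1) (fun j => ?_), fun S hS => ?_⟩
    · by_cases hj : j = i
      · subst hj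
        simp
      · simp [hj]
    · have e : ∑ j ∈ S.1, (Pi.single i (1 : ℝ) : Fin 3 → ℝ) j = 1 := by
        rw [Finset.sum_pi_single']
        rw [if_pos hS]
      show (∑ j ∈ S.1, (Pi.single i (1 : ℝ) : Fin 3 → ℝ) j) * μ S = μ S
      rw [e, one_mul]
  tfae_have 4 → 1 := by
    intro h
    refine ⟨?_, ?_, ?_⟩
    · intro S
      obtain ⟨i, hi⟩ := S.2
      obtain ⟨v, hv, hval⟩ := h i
      rw [← hval S hi]
      exact (closure_multPoly hv).1 S
    · intro S T hST
      obtain ⟨i, hi⟩ := S.2
      obtain ⟨v, hv, hval⟩ := h i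
      rw [← hval S hi, ← hval T (hST hi)]
      exact (closure_multPoly hv).2.1 S T hST
    · intro S T hne
      obtain ⟨i, hi⟩ := hne
      obtain ⟨v, hv, hval⟩ := h i
      have hi' := Finset.mem_inter.1 hi
      rw [← hval S hi'.1, ← hval T hi'.2, ← hval ⟨S.1 ∪ T.1, _⟩ (Finset.mem_union_left _ hi'.1),
        ← hval ⟨S.1 ∩ T.1, ⟨i, hi⟩⟩ hi]
      exact (closure_multPoly hv).2.2 S T ⟨i, hi⟩
  tfae_finish

end Pool.Agent.Results.MP_04c77c_pr.GammaThree
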