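import Mathlib

set_option autoImplicit false

/-!
# The closure of the entropy power region is not convex

For `n ≥ 3` the closure of the entropy power region `Γ(n)` is not convex.  The obstruction is
the (non-convex, homogeneous) inequality `N(ijk) N(k) ≤ N(ik) N(jk)`, i.e. submodularity of the
differential entropy of sums of independent random vectors, which is proved here from
`log t ≤ t - 1` and Tonelli's theorem, and which the midpoint of two explicit points of `Γ_2(n)`
(coming from uniform laws on boxes) violates.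
-/

open MeasureTheory ProbabilityTheory ENNReal

namespace Pool.Agent.Results.MP_04c77c_pr.NotConvex

/-! ## Definitions used in the statement -/

/-- Differential entropy `h(μ) = -∫ f log f` of a law `μ` on `ℝ^d` with Lebesgue density
`f = dμ/dx` (the Radon-Nikodym derivative). -/
noncomputable def diffEntropy {d : ℕ} (μ : Measure (Fin d → ℝ)) : ℝ :=
  -∫ x, (μ.rnDeriv volume x).toReal * Real.log (μ.rnDeriv volume x).toReal

/-- The law `μ` on `ℝ^d` has a Lebesgue density `f` and finite differential entropy, i.e.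
`μ` is absolutely continuous and `f log f` is Lebesgue integrable. -/
def FiniteEntropy {d : ℕ} (μ : Measure (Fin d → ℝ)) : Prop :=
  μ ≪ volume ∧
    Integrable (fun x => (μ.rnDeriv volume x).toReal *
      Real.log (μ.rnDeriv volume x).toReal) volume

/-- Entropy power `N(μ) = exp((2/d) h(μ))` of a law `μ` on `ℝ^d`. -/
noncomputable def entropyPower {d : ℕ} (μ : Measure (Fin d → ℝ)) : ℝ :=
  Real.exp (2 / (d : ℝ) * diffEntropy μ)

/-- The law of the subset sum `∑_{i ∈ S} X_i`. -/
noncomputable def sumLaw {d n : ℕ} {Ω : Type} [MeasurableSpace Ω] (P : Measure Ω)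
    (X : Fin n → Ω → (Fin d → ℝ)) (S : Finset (Fin n)) : Measure (Fin d → ℝ) :=
  P.map (fun ω => ∑ i ∈ S, X i ω)

/-- `Γ_d(n)`: all vectors `(N(∑_{i ∈ S} X_i))_{∅ ≠ S ⊆ [n]}`, where `X_1, …, X_n` are independent
random vectors in `ℝ^d` such that all subset sums (in particular the `X_i` themselves) have a
density and finite differential entropy. -/
def Gamma (d n : ℕ) : Set ({S : Finset (Fin n) // S.Nonempty} → ℝ) :=
  {v | ∃ (Ω : Type) (_ : MeasurableSpace Ω) (P : Measure Ω) (X : Fin n → Ω → (Fin d → ℝ)),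
    IsProbabilityMeasure P ∧ (∀ i, Measurable (X i)) ∧ iIndepFun X P ∧
    (∀ S : Finset (Fin n), S.Nonempty → FiniteEntropy (sumLaw P X S)) ∧
    ∀ S : {S : Finset (Fin n) // S.Nonempty}, v S = entropyPower (sumLaw P X S.1)}

/-- The entropy power region `Γ(n) = ⋃_{d ≥ 1} Γ_d(n)`. -/
def EntropyPowerRegion (n : ℕ) : Set ({S : Finset (Fin n) // S.Nonempty} → ℝ) :=
  ⋃ d ≥ 1, Gamma d n

/-! ## Preliminaries -/

variable {d : ℕ}

lemma integrable_log {Ω : Type*} [MeasurableSpace Ω] {P : Measure Ω} {E : Type*}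
    [MeasurableSpace E] {ν : Measure E} [SigmaFinite ν]
    [IsFiniteMeasure P] {X : Ω → E} (hX : Measurable X)
    (hac : P.map X ≪ ν)
    (h : Integrable (fun x => ((P.map X).rnDeriv ν x).toReal *
      Real.log ((P.map X).rnDeriv ν x).toReal) ν) :
    Integrable (fun ω => Real.log ((P.map X).rnDeriv ν (X ω)).toReal) P := by
  have h1 : Integrable (fun x => Real.log ((P.map X).rnDeriv ν x).toReal) (P.map X) :=
    (integrable_toReal_rnDeriv_mul_iff hac).1 h
  exact h1.comp_measurable hX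

lemma integral_log {Ω : Type*} [MeasurableSpace Ω] {P : Measure Ω} {E : Type*}
    [MeasurableSpace E] {ν : Measure E} [SigmaFinite ν]
    [IsFiniteMeasure P] {X : Ω → E} (hX : Measurable X)
    (hac : P.map X ≪ ν) :
    ∫ ω, Real.log ((P.map X).rnDeriv ν (X ω)).toReal ∂P =
      ∫ x, ((P.map X).rnDeriv ν x).toReal *
      Real.log ((P.map X).rnDeriv ν x).toReal ∂ν := by
  rw [integral_toReal_rnDeriv_mul hac, integral_map hX.aemeasurable]
  have : Measurable (fun x => Real.log ((P.map X).rnDeriv ν x).toReal) := by fun_prop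
  exact this.aestronglyMeasurable

lemma pos_ae {Ω : Type*} [MeasurableSpace Ω] {P : Measure Ω} {E : Type*}
    [MeasurableSpace E] {ν : Measure E} [SigmaFinite ν]
    [IsFiniteMeasure P] {X : Ω → E} (hX : Measurable X)
    (hac : P.map X ≪ ν) :
    ∀ᵐ ω ∂P, 0 < (P.map X).rnDeriv ν (X ω) ∧ (P.map X).rnDeriv ν (X ω) < ∞ := by
  have h1 : ∀ᵐ x ∂(P.map X), 0 < (P.map X).rnDeriv ν x := Measure.rnDeriv_pos hac
  have h2 : ∀ᵐ x ∂(P.map X), (P.map X).rnDeriv ν x < ∞ := hac.ae_le (Measure.rnDeriv_lt_top _ _)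
  exact ae_of_ae_map hX.aemeasurable (h1.and h2)

lemma key_lintegral {E : Type*} [MeasurableSpace E] [AddCommGroup E] [MeasurableAdd₂ E]
    [MeasurableNeg E] {ν : Measure E} [SFinite ν] [ν.IsAddLeftInvariant] [ν.IsNegInvariant]
    {f0 f1 f2 q r p : E → ℝ≥0∞} (hf0 : Measurable f0) (hf1 : Measurable f1)
    (hq : Measurable q) (hr : Measurable r) (hp : Measurable p)
    (hp1 : ∀ᵐ u ∂ν, ∫⁻ x, f0 x * q (u - x) ∂ν = p u)
    (hp2 : ∀ᵐ u ∂ν, ∫⁻ y, f1 y * r (u - y) ∂ν = p u) :
    ∫⁻ x, ∫⁻ y, ∫⁻ z, f0 x * (f1 y * (f2 z * (q (y + z) * r (x + z) *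
      (p (x + y + z))⁻¹ * (f2 z)⁻¹))) ∂ν ∂ν ∂ν ≤ ∫⁻ u, p u ∂ν := by
  have h1 : ∀ x y, ∫⁻ z, f0 x * (f1 y * (f2 z * (q (y + z) * r (x + z) *
      (p (x + y + z))⁻¹ * (f2 z)⁻¹))) ∂ν ≤
      ∫⁻ u, (f0 x * q (u - x)) * (f1 y * r (u - y)) * (p u)⁻¹ ∂ν := by
    intro x y
    calc ∫⁻ z, f0 x * (f1 y * (f2 z * (q (y + z) * r (x + z) *
          (p (x + y + z))⁻¹ * (f2 z)⁻¹))) ∂ν 
        ≤ ∫⁻ z, (f0 x * q (y + z)) * (f1 y * r (x + z)) * (p (x + y + z))⁻¹ ∂ν := by
          apply lintegral_mono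
          intro z
          have : f2 z * (f2 z)⁻¹ ≤ 1 := ENNReal.mul_inv_le_one _
          calc f0 x * (f1 y * (f2 z * (q (y + z) * r (x + z) *
                (p (x + y + z))⁻¹ * (f2 z)⁻¹))) 
              = (f0 x * q (y + z)) * (f1 y * r (x + z)) * (p (x + y + z))⁻¹ *
                  (f2 z * (f2 z)⁻¹) := by ring
            _ ≤ (f0 x * q (y + z)) * (f1 y * r (x + z)) * (p (x + y + z))⁻¹ * 1 := by
                gcongr
            _ = _ := by rw [mul_one]
      _ = ∫⁻ u, (f0 x * q (u - x)) * (f1 y * r (u - y)) * (p u)⁻¹ ∂ν := by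
          rw [← lintegral_add_left_eq_self
            (fun u => (f0 x * q (u - x)) * (f1 y * r (u - y)) * (p u)⁻¹) (x + y)]
          congr 1
          ext z
          have e1 : x + y + z - x = y + z := by abel
          have e2 : x + y + z - y = x + z := by abel
          rw [e1, e2]
  calc ∫⁻ x, ∫⁻ y, ∫⁻ z, f0 x * (f1 y * (f2 z * (q (y + z) * r (x + z) *
      (p (x + y + z))⁻¹ * (f2 z)⁻¹))) ∂ν ∂ν ∂ν 
      ≤ ∫⁻ x, ∫⁻ y, ∫⁻ u, (f0 x * q (u - x)) * (f1 y * r (u - y)) * (p u)⁻¹ ∂ν ∂ν ∂ν :=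
        lintegral_mono fun x => lintegral_mono fun y => h1 x y
    _ = ∫⁻ x, ∫⁻ u, ∫⁻ y, (f0 x * q (u - x)) * (f1 y * r (u - y)) * (p u)⁻¹ ∂ν ∂ν ∂ν := by
        congr 1
        ext x
        rw [lintegral_lintegral_swap]
        fun_prop
    _ = ∫⁻ u, ∫⁻ x, ∫⁻ y, (f0 x * q (u - x)) * (f1 y * r (u - y)) * (p u)⁻¹ ∂ν ∂ν ∂ν := by
        rw [lintegral_lintegral_swap]
        fun_prop
    _ = ∫⁻ u, p u * p u * (p u)⁻¹ ∂ν := by
        apply lintegral_congr_ae
        filter_upwards [hp1, hp2] with u h1 h2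
        calc ∫⁻ x, ∫⁻ y, (f0 x * q (u - x)) * (f1 y * r (u - y)) * (p u)⁻¹ ∂ν ∂ν
            = ∫⁻ x, (f0 x * q (u - x)) * (p u * (p u)⁻¹) ∂ν := by
              congr 1
              ext x
              simp_rw [mul_assoc (f0 x * q (u - x))]
              rw [lintegral_const_mul _ (by fun_prop), lintegral_mul_const _ (by fun_prop), h2]
          _ = p u * p u * (p u)⁻¹ := by
              rw [lintegral_mul_const _ (by fun_prop), h1]
              ring
    _ ≤ ∫⁻ u, p u ∂ν := by
        apply lintegral_mono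
        intro u
        show p u * p u * (p u)⁻¹ ≤ p u
        calc p u * p u * (p u)⁻¹ = p u * (p u * (p u)⁻¹) := by ring
          _ ≤ p u * 1 := by gcongr; exact ENNReal.mul_inv_le_one _
          _ = p u := mul_one _

section maps
variable {E : Type*} [MeasurableSpace E] [AddCommGroup E] [MeasurableAdd₂ E]
    (μ0 μ1 μ2 : Measure E) [IsProbabilityMeasure μ0] [IsProbabilityMeasure μ1]
    [IsProbabilityMeasure μ2]

lemma map12 : (μ0.prod (μ1.prod μ2)).map (fun w : E × E × E => w.2.1 + w.2.2) = μ1 ∗ μ2 := by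
  have : (fun w : E × E × E => w.2.1 + w.2.2) = (fun v : E × E => v.1 + v.2) ∘ Prod.snd := rfl
  rw [this, ← Measure.map_map (by fun_prop) (by fun_prop), Measure.map_snd_prod]
  simp [Measure.conv]

omit [AddCommGroup E] [MeasurableAdd₂ E] in
lemma map2 : (μ0.prod (μ1.prod μ2)).map (fun w : E × E × E => w.2.2) = μ2 := by
  have : (fun w : E × E × E => w.2.2) = Prod.snd ∘ Prod.snd := rfl
  rw [this, ← Measure.map_map (by fun_prop) (by fun_prop), Measure.map_snd_prod]
  simp

lemma map02 : (μ0.prod (μ1.prod μ2)).map (fun w : E × E × E => w.1 + w.2.2) = μ0 ∗ μ2 := by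
  have : (fun w : E × E × E => w.1 + w.2.2) =
    (fun v : E × E => v.1 + v.2) ∘ (Prod.map id Prod.snd) := rfl
  rw [this, ← Measure.map_map (by fun_prop) (by fun_prop), ← Measure.map_prod_map _ _
    measurable_id measurable_snd, Measure.map_snd_prod]
  simp [Measure.conv]

lemma map012 : (μ0.prod (μ1.prod μ2)).map (fun w : E × E × E => w.1 + w.2.1 + w.2.2) =
    μ0 ∗ (μ1 ∗ μ2) := by
  have : (fun w : E × E × E => w.1 + w.2.1 + w.2.2) =
    (fun v : E × E => v.1 + v.2) ∘ (Prod.map id (fun v : E × E => v.1 + v.2)) := by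
    ext w
    simp [add_assoc]
  rw [this, ← Measure.map_map (by fun_prop) (by fun_prop), ← Measure.map_prod_map _ _
    measurable_id (by fun_prop)]
  simp [Measure.conv]

end maps

/-- Submodularity of differential entropy of sums (on the level of laws). -/
lemma submod (μ0 μ1 μ2 : Measure (Fin d → ℝ)) [IsProbabilityMeasure μ0]
    [IsProbabilityMeasure μ1] [IsProbabilityMeasure μ2]
    (h0 : μ0 ≪ volume) (h1 : μ1 ≪ volume)
    (h2 : FiniteEntropy μ2) (h02 : FiniteEntropy (μ0 ∗ μ2)) (h12 : FiniteEntropy (μ1 ∗ μ2))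
    (h012 : FiniteEntropy (μ0 ∗ (μ1 ∗ μ2))) :
    diffEntropy (μ0 ∗ (μ1 ∗ μ2)) + diffEntropy μ2 ≤
      diffEntropy (μ0 ∗ μ2) + diffEntropy (μ1 ∗ μ2) := by
  set f0 := μ0.rnDeriv volume with hf0
  set f1 := μ1.rnDeriv volume with hf1
  set f2 := μ2.rnDeriv volume with hf2
  set q := (μ1 ∗ μ2).rnDeriv volume with hq
  set r := (μ0 ∗ μ2).rnDeriv volume with hr
  set p := (μ0 ∗ (μ1 ∗ μ2)).rnDeriv volume with hp
  set π := μ0.prod (μ1.prod μ2) with hπ
  have mf0 : Measurable f0 := Measure.measurable_rnDeriv _ _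
  have mf1 : Measurable f1 := Measure.measurable_rnDeriv _ _
  have mf2 : Measurable f2 := Measure.measurable_rnDeriv _ _
  have mq : Measurable q := Measure.measurable_rnDeriv _ _
  have mr : Measurable r := Measure.measurable_rnDeriv _ _
  have mp : Measurable p := Measure.measurable_rnDeriv _ _
  have hp1 : ∀ᵐ u ∂(volume : Measure (Fin d → ℝ)), ∫⁻ x, f0 x * q (u - x) ∂volume = p u := by
    have := rnDeriv_conv (μ := (volume : Measure (Fin d → ℝ))) (ν₁ := μ0) (ν₂ := μ1 ∗ μ2)
      h0 h12.1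
    filter_upwards [this] with u hu
    rw [hp, hu]
    simp only [lconvolution_def]
    congr 1
    ext x
    rw [neg_add_eq_sub]
  have hp2 : ∀ᵐ u ∂(volume : Measure (Fin d → ℝ)), ∫⁻ y, f1 y * r (u - y) ∂volume = p u := by
    have := rnDeriv_conv (μ := (volume : Measure (Fin d → ℝ))) (ν₁ := μ1) (ν₂ := μ0 ∗ μ2)
      h1 h02.1
    have e : μ0 ∗ (μ1 ∗ μ2) = μ1 ∗ (μ0 ∗ μ2) := by
      rw [← Measure.conv_assoc, Measure.conv_comm μ0 μ1, Measure.conv_assoc]
    filter_upwards [this] with u hu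
    rw [hp, e, hu]
    simp only [lconvolution_def]
    congr 1
    ext x
    rw [neg_add_eq_sub]
  have key := key_lintegral (ν := (volume : Measure (Fin d → ℝ))) (f2 := f2) mf0 mf1 mq mr mp hp1 hp2
  -- the ratio
  set R : (Fin d → ℝ) × (Fin d → ℝ) × (Fin d → ℝ) → ℝ≥0∞ := fun w =>
    q (w.2.1 + w.2.2) * r (w.1 + w.2.2) * (p (w.1 + w.2.1 + w.2.2))⁻¹ * (f2 w.2.2)⁻¹ with hR
  have mR : Measurable R := by fun_prop
  have hRle : ∫⁻ w, R w ∂π ≤ 1 := by
    calc ∫⁻ w, R w ∂π = ∫⁻ x, ∫⁻ y, ∫⁻ z, R (x, y, z) ∂μ2 ∂μ1 ∂μ0 := by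
          rw [hπ, lintegral_prod _ (by fun_prop)]
          congr 1
          ext x
          rw [lintegral_prod _ (by fun_prop)]
      _ = ∫⁻ x, ∫⁻ y, ∫⁻ z, f0 x * (f1 y * (f2 z * (q (y + z) * r (x + z) *
      (p (x + y + z))⁻¹ * (f2 z)⁻¹))) := by
          rw [← lintegral_rnDeriv_mul h0 (by fun_prop)]
          congr 1
          ext x
          rw [← lintegral_rnDeriv_mul h1 (by fun_prop), ← lintegral_const_mul _ (by fun_prop)]
          congr 1
          ext y
          rw [← lintegral_rnDeriv_mul h2.1 (by fun_prop), ← lintegral_const_mul _ (by fun_prop),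
            ← lintegral_const_mul _ (by fun_prop)]
      _ ≤ ∫⁻ u, p u := key
      _ ≤ 1 := by
          have : ∫⁻ u, p u = (μ0 ∗ (μ1 ∗ μ2)) Set.univ := Measure.lintegral_rnDeriv h012.1
          rw [this, measure_univ]
  have hRint : Integrable (fun w => (R w).toReal) π :=
    integrable_toReal_of_lintegral_ne_top mR.aemeasurable
      (ne_top_of_le_ne_top one_ne_top hRle)
  have hRint1 : ∫ w, (R w).toReal ∂π ≤ 1 := by
    rw [integral_toReal mR.aemeasurable (ae_lt_top mR (ne_top_of_le_ne_top one_ne_top hRle))]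
    exact toReal_le_of_le_ofReal zero_le_one (by simpa using hRle)
  -- expectations of logs
  have e12 := map12 μ0 μ1 μ2
  have e02 := map02 μ0 μ1 μ2
  have e2 := map2 μ0 μ1 μ2
  have e012 := map012 μ0 μ1 μ2
  rw [← hπ] at e12 e02 e2 e012
  have m12 : Measurable (fun w : (Fin d → ℝ) × (Fin d → ℝ) × (Fin d → ℝ) => w.2.1 + w.2.2) := by
    fun_prop
  have m02 : Measurable (fun w : (Fin d → ℝ) × (Fin d → ℝ) × (Fin d → ℝ) => w.1 + w.2.2) := by
    fun_prop
  have m2 : Measurable (fun w : (Fin d → ℝ) × (Fin d → ℝ) × (Fin d → ℝ) => w.2.2) := by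
    fun_prop
  have m012 : Measurable (fun w : (Fin d → ℝ) × (Fin d → ℝ) × (Fin d → ℝ) =>
    w.1 + w.2.1 + w.2.2) := by
    fun_prop
  have I12 := integrable_log (ν := volume) (P := π) m12 (by rw [e12]; exact h12.1)
    (by rw [e12]; exact h12.2)
  have I02 := integrable_log (ν := volume) (P := π) m02 (by rw [e02]; exact h02.1)
    (by rw [e02]; exact h02.2)
  have I2 := integrable_log (ν := volume) (P := π) m2 (by rw [e2]; exact h2.1)
    (by rw [e2]; exact h2.2)
  have I012 := integrable_log (ν := volume) (P := π) m012 (by rw [e012]; exact h012.1)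
    (by rw [e012]; exact h012.2)
  have J12 := integral_log (ν := volume) (P := π) m12 (by rw [e12]; exact h12.1)
  have J02 := integral_log (ν := volume) (P := π) m02 (by rw [e02]; exact h02.1)
  have J2 := integral_log (ν := volume) (P := π) m2 (by rw [e2]; exact h2.1)
  have J012 := integral_log (ν := volume) (P := π) m012 (by rw [e012]; exact h012.1)
  have P12 := pos_ae (ν := volume) (P := π) m12 (by rw [e12]; exact h12.1)
  have P02 := pos_ae (ν := volume) (P := π) m02 (by rw [e02]; exact h02.1)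
  have P2 := pos_ae (ν := volume) (P := π) m2 (by rw [e2]; exact h2.1)
  have P012 := pos_ae (ν := volume) (P := π) m012 (by rw [e012]; exact h012.1)
  rw [e12] at I12 J12 P12
  rw [e02] at I02 J02 P02
  rw [e2] at I2 J2 P2
  rw [e012] at I012 J012 P012
  rw [← hq] at I12 J12 P12
  rw [← hr] at I02 J02 P02
  rw [← hf2] at I2 J2 P2
  rw [← hp] at I012 J012 P012
  have hle : ∀ᵐ w ∂π, Real.log (q (w.2.1 + w.2.2)).toReal + Real.log (r (w.1 + w.2.2)).toReal
      - Real.log (p (w.1 + w.2.1 + w.2.2)).toReal - Real.log (f2 w.2.2).toReal ≤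
      (R w).toReal - 1 := by
    filter_upwards [P12, P02, P2, P012] with w a b c e
    have a' := toReal_pos a.1.ne' a.2.ne
    have b' := toReal_pos b.1.ne' b.2.ne
    have c' := toReal_pos c.1.ne' c.2.ne
    have e' := toReal_pos e.1.ne' e.2.ne
    have hRw : (R w).toReal = (q (w.2.1 + w.2.2)).toReal * (r (w.1 + w.2.2)).toReal *
        (p (w.1 + w.2.1 + w.2.2)).toReal⁻¹ * (f2 w.2.2).toReal⁻¹ := by
      simp [hR, toReal_mul, toReal_inv]
    have hpos : 0 < (R w).toReal := by rw [hRw]; positivity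
    have hlog : Real.log (R w).toReal = Real.log (q (w.2.1 + w.2.2)).toReal +
      Real.log (r (w.1 + w.2.2)).toReal
      - Real.log (p (w.1 + w.2.1 + w.2.2)).toReal - Real.log (f2 w.2.2).toReal := by
      rw [hRw, Real.log_mul (by positivity) (by positivity), Real.log_mul (by positivity)
        (by positivity), Real.log_mul (by positivity) (by positivity), Real.log_inv, Real.log_inv]
      ring
    rw [← hlog]
    exact Real.log_le_sub_one_of_pos hpos
  have hint := integral_mono_ae (((I12.add I02).sub I012).sub I2)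
    (hRint.sub (integrable_const (1 : ℝ))) hle
  rw [integral_sub' ((I12.add I02).sub I012) I2, integral_sub' (I12.add I02) I012,
    integral_add' I12 I02, integral_sub' hRint (integrable_const _), J12, J02, J2, J012] at hint
  simp only [integral_const, probReal_univ, smul_eq_mul, mul_one] at hint
  unfold diffEntropy
  rw [← hq, ← hr, ← hf2, ← hp]
  linarith

lemma rnDeriv_le_of_le {μ : Measure (Fin d → ℝ)} [IsFiniteMeasure μ] {c : ℝ≥0∞}
    (h : μ ≤ c • (volume : Measure (Fin d → ℝ))) :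
    ∀ᵐ x ∂(volume : Measure (Fin d → ℝ)), μ.rnDeriv volume x ≤ c := by
  apply ae_le_of_forall_setLIntegral_le_of_sigmaFinite₀ (Measure.measurable_rnDeriv _ _).aemeasurable
  intro s hs _
  calc ∫⁻ x in s, μ.rnDeriv volume x ≤ μ s := Measure.setLIntegral_rnDeriv_le s
    _ ≤ (c • (volume : Measure (Fin d → ℝ))) s := h s
    _ = ∫⁻ x in s, c := by simp

lemma ac_of_le {μ : Measure (Fin d → ℝ)} {c : ℝ≥0∞}
    (h : μ ≤ c • (volume : Measure (Fin d → ℝ))) : μ ≪ volume :=
  (Measure.absolutelyContinuous_of_le h).trans Measure.smul_absolutelyContinuous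

lemma rnDeriv_zero_off {μ : Measure (Fin d → ℝ)} [IsFiniteMeasure μ] 
    {B : Set (Fin d → ℝ)} (hB : MeasurableSet B) (h : μ Bᶜ = 0) :
    ∀ᵐ x ∂(volume : Measure (Fin d → ℝ)), x ∉ B → μ.rnDeriv volume x = 0 := by
  have h1 : ∫⁻ x in Bᶜ, μ.rnDeriv volume x = 0 :=
    le_antisymm ((Measure.setLIntegral_rnDeriv_le _).trans h.le) (zero_le)
  rw [lintegral_eq_zero_iff (Measure.measurable_rnDeriv _ _)] at h1
  rw [Filter.EventuallyEq, ae_restrict_iff' hB.compl] at h1
  filter_upwards [h1] with x hx hxB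
  exact hx hxB

lemma finiteEntropy_of_le {μ : Measure (Fin d → ℝ)} [IsFiniteMeasure μ] {c : ℝ≥0∞}
    (hc : c ≠ ∞) (h : μ ≤ c • (volume : Measure (Fin d → ℝ)))
    {B : Set (Fin d → ℝ)} (hB : MeasurableSet B) (hBv : volume B ≠ ∞) (hμB : μ Bᶜ = 0) :
    FiniteEntropy μ := by
  refine ⟨ac_of_le h, ?_⟩
  obtain ⟨K, hK⟩ := (isCompact_Icc (a := (0 : ℝ)) (b := c.toReal)).exists_bound_of_continuousOn
    (f := fun t => t * Real.log t) Real.continuous_mul_log.continuousOn
  refine Integrable.mono' (g := B.indicator (fun _ => K)) ?_ ?_ ?_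
  · rw [integrable_indicator_iff hB]
    exact integrableOn_const hBv
  · have : Measurable (fun x => (μ.rnDeriv volume x).toReal *
      Real.log (μ.rnDeriv volume x).toReal) := by fun_prop
    exact this.aestronglyMeasurable
  · filter_upwards [rnDeriv_le_of_le h, rnDeriv_zero_off hB hμB] with x h1 h2
    by_cases hx : x ∈ B
    · rw [Set.indicator_of_mem hx]
      exact hK _ ⟨toReal_nonneg, toReal_mono hc h1⟩
    · rw [Set.indicator_of_notMem hx, h2 hx]
      simp

lemma integrable_toReal_rn (μ : Measure (Fin d → ℝ)) [IsFiniteMeasure μ] :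
    Integrable (fun x => (μ.rnDeriv volume x).toReal) volume :=
  Measure.integrable_toReal_rnDeriv

lemma integral_toReal_rn {μ : Measure (Fin d → ℝ)} [IsProbabilityMeasure μ]
    (h : μ ≪ volume) : ∫ x, (μ.rnDeriv volume x).toReal = 1 := by
  rw [Measure.integral_toReal_rnDeriv h]
  simp

/-- Upper bound by the volume of a supporting set. -/
lemma diffEntropy_le {μ : Measure (Fin d → ℝ)} [IsProbabilityMeasure μ]
    (h : FiniteEntropy μ) {B : Set (Fin d → ℝ)} (hB : MeasurableSet B)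
    (hBv : volume B ≠ ∞) (hB0 : volume B ≠ 0) (hμB : μ Bᶜ = 0) :
    diffEntropy μ ≤ Real.log (volume B).toReal := by
  set V := (volume B).toReal with hV
  have hVpos : 0 < V := toReal_pos hB0 hBv
  have h1 := integrable_toReal_rn μ
  have h2 := integral_toReal_rn h.1
  have hind : Integrable (B.indicator (fun _ => 1 / V)) (volume : Measure (Fin d → ℝ)) := by
    rw [integrable_indicator_iff hB]
    exact integrableOn_const hBv
  have hle : ∀ᵐ x ∂(volume : Measure (Fin d → ℝ)),
      -((μ.rnDeriv volume x).toReal * Real.log (μ.rnDeriv volume x).toReal) ≤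
      (μ.rnDeriv volume x).toReal * Real.log V + (B.indicator (fun _ => 1 / V) x -
        (μ.rnDeriv volume x).toReal) := by
    filter_upwards [rnDeriv_zero_off hB hμB] with x hx
    set t := (μ.rnDeriv volume x).toReal with ht
    by_cases hxB : x ∈ B
    · rw [Set.indicator_of_mem hxB]
      have ht0 : 0 ≤ t := toReal_nonneg
      rcases ht0.eq_or_lt with h0 | h0
      · rw [← h0]
        simp
        positivity
      · have : Real.log (1 / (t * V)) ≤ 1 / (t * V) - 1 :=
          Real.log_le_sub_one_of_pos (by positivity)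
        rw [Real.log_div one_ne_zero (by positivity), Real.log_one,
          Real.log_mul (by positivity) (by positivity)] at this
        have h3 := mul_le_mul_of_nonneg_left this h0.le
        have h4 : t * (1 / (t * V) - 1) = 1 / V - t := by
          have : t ≠ 0 := h0.ne'
          field_simp
        rw [h4] at h3
        linarith
    · rw [Set.indicator_of_notMem hxB]
      have : t = 0 := by rw [ht, hx hxB]; simp
      rw [this]
      simp
  have := integral_mono_ae h.2.neg ((h1.mul_const _).add (hind.sub h1)) hle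
  rw [integral_add' (h1.mul_const _) (hind.sub h1), integral_sub' hind h1, integral_mul_const, h2,
    integral_indicator hB] at this
  simp only [Pi.neg_apply, integral_neg, integral_const, measureReal_restrict_apply_univ,
    smul_eq_mul] at this
  have hVV : volume.real B = V := rfl
  rw [hVV] at this
  unfold diffEntropy
  have e : V * (1 / V) = 1 := by field_simp
  rw [e] at this
  linarith

/-- Lower bound by the supremum of the density. -/
lemma le_diffEntropy {μ : Measure (Fin d → ℝ)} [IsProbabilityMeasure μ]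
    (h : FiniteEntropy μ) {c : ℝ≥0∞} (hc : c ≠ ∞)
    (hle : μ ≤ c • (volume : Measure (Fin d → ℝ))) :
    -Real.log c.toReal ≤ diffEntropy μ := by
  have h1 := integrable_toReal_rn μ
  have h2 := integral_toReal_rn h.1
  have hle : ∀ᵐ x ∂(volume : Measure (Fin d → ℝ)),
      (μ.rnDeriv volume x).toReal * Real.log (μ.rnDeriv volume x).toReal ≤
      (μ.rnDeriv volume x).toReal * Real.log c.toReal := by
    filter_upwards [rnDeriv_le_of_le hle] with x hx
    set t := (μ.rnDeriv volume x).toReal with ht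
    have ht0 : 0 ≤ t := toReal_nonneg
    rcases ht0.eq_or_lt with h0 | h0
    · rw [← h0]
      simp
    · apply mul_le_mul_of_nonneg_left _ h0.le
      exact Real.log_le_log h0 (toReal_mono hc hx)
  have := integral_mono_ae h.2 (h1.mul_const _) hle
  rw [integral_mul_const, h2] at this
  unfold diffEntropy
  linarith

lemma conv_le {μ ν : Measure (Fin d → ℝ)} [IsProbabilityMeasure μ] [IsProbabilityMeasure ν]
    {c : ℝ≥0∞} (hle : μ ≤ c • (volume : Measure (Fin d → ℝ))) :
    ν ∗ μ ≤ c • (volume : Measure (Fin d → ℝ)) := by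
  refine Measure.le_iff.2 fun s hs => ?_
  rw [Measure.conv, Measure.map_apply (by fun_prop) hs, Measure.prod_apply (by measurability)]
  calc ∫⁻ x, μ (Prod.mk x ⁻¹' ((fun x : (Fin d → ℝ) × (Fin d → ℝ) => x.1 + x.2) ⁻¹' s)) ∂ν
      ≤ ∫⁻ x, (c • (volume : Measure (Fin d → ℝ))) s ∂ν := by
        apply lintegral_mono
        intro x
        show μ (Prod.mk x ⁻¹' ((fun x : (Fin d → ℝ) × (Fin d → ℝ) => x.1 + x.2) ⁻¹' s)) ≤ _
        have e : (Prod.mk x ⁻¹' ((fun x : (Fin d → ℝ) × (Fin d → ℝ) => x.1 + x.2) ⁻¹' s)) =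
            (fun y => x + y) ⁻¹' s := rfl
        rw [e]
        refine (hle _).trans ?_
        rw [Measure.smul_apply, Measure.smul_apply, measure_preimage_add]
    _ = (c • (volume : Measure (Fin d → ℝ))) s := by simp

section laws

variable {d n : ℕ} {Ω : Type} [MeasurableSpace Ω] {P : Measure Ω} [IsProbabilityMeasure P]
  {X : Fin n → Ω → (Fin d → ℝ)}

lemma sumLaw_singleton (i : Fin n) : sumLaw P X {i} = P.map (X i) := by
  simp [sumLaw]

lemma sumLaw_insert (hX : ∀ i, Measurable (X i)) (hind : iIndepFun X P)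
    {i : Fin n} {S : Finset (Fin n)} (hi : i ∉ S) :
    sumLaw P X (insert i S) = P.map (X i) ∗ sumLaw P X S := by
  have h1 : IndepFun (X i) (fun ω => ∑ j ∈ S, X j ω) P := by
    have := (hind.indepFun_finsetSum_of_notMem hX hi).symm
    convert this using 1
    ext ω
    simp
  have h2 : Measurable (fun ω => ∑ j ∈ S, X j ω) := by
    exact Finset.measurable_sum _ (fun j _ => hX j)
  have := h1.map_add_eq_map_conv_map (hX i) h2
  unfold sumLaw
  rw [← this]
  congr 1
  ext ω
  simp [Finset.sum_insert hi]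

lemma isProb (hX : ∀ i, Measurable (X i)) (S : Finset (Fin n)) :
    IsProbabilityMeasure (sumLaw P X S) := by
  have h2 : Measurable (fun ω => ∑ j ∈ S, X j ω) := by
    exact Finset.measurable_sum _ (fun j _ => hX j)
  exact Measure.isProbabilityMeasure_map h2.aemeasurable

end laws

/-- Every point of the entropy power region satisfies `N(ijk) N(k) ≤ N(ik) N(jk)`. -/
lemma mem_imp {n : ℕ} {v : {S : Finset (Fin n) // S.Nonempty} → ℝ}
    (hv : v ∈ EntropyPowerRegion n) {i j k : Fin n} (hij : i ≠ j) (hik : i ≠ k) (hjk : j ≠ k) :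
    v ⟨{i, j, k}, by simp⟩ * v ⟨{k}, by simp⟩ ≤ v ⟨{i, k}, by simp⟩ * v ⟨{j, k}, by simp⟩ := by
  simp only [EntropyPowerRegion, Set.mem_iUnion] at hv
  obtain ⟨d, hd, Ω, mΩ, P, X, hP, hX, hind, hfin, hval⟩ := hv
  rw [hval, hval, hval, hval]
  have e1 : sumLaw P X {k} = P.map (X k) := sumLaw_singleton k
  have e2 : sumLaw P X {i, k} = P.map (X i) ∗ P.map (X k) := by
    rw [sumLaw_insert hX hind (by simpa using hik), e1]
  have e3 : sumLaw P X {j, k} = P.map (X j) ∗ P.map (X k) := by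
    rw [sumLaw_insert hX hind (by simpa using hjk), e1]
  have e4 : sumLaw P X {i, j, k} = P.map (X i) ∗ (P.map (X j) ∗ P.map (X k)) := by
    rw [sumLaw_insert hX hind (by simp [hij, hik]), e3]
  have hpi : IsProbabilityMeasure (P.map (X i)) :=
    Measure.isProbabilityMeasure_map (hX i).aemeasurable
  have hpj : IsProbabilityMeasure (P.map (X j)) :=
    Measure.isProbabilityMeasure_map (hX j).aemeasurable
  have hpk : IsProbabilityMeasure (P.map (X k)) :=
    Measure.isProbabilityMeasure_map (hX k).aemeasurable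
  have aci : P.map (X i) ≪ volume := by
    have := (hfin {i} (by simp)).1
    rwa [sumLaw_singleton] at this
  have acj : P.map (X j) ≪ volume := by
    have := (hfin {j} (by simp)).1
    rwa [sumLaw_singleton] at this
  have key := submod (P.map (X i)) (P.map (X j)) (P.map (X k)) aci acj
    (by rw [← e1]; exact hfin _ (by simp)) (by rw [← e2]; exact hfin _ (by simp))
    (by rw [← e3]; exact hfin _ (by simp)) (by rw [← e4]; exact hfin _ (by simp))
  simp only [e1, e2, e3, e4]
  unfold entropyPower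
  rw [← Real.exp_add, ← Real.exp_add, ← mul_add, ← mul_add]
  apply Real.exp_le_exp.2
  apply mul_le_mul_of_nonneg_left key
  positivity

lemma closure_imp {n : ℕ} {v : {S : Finset (Fin n) // S.Nonempty} → ℝ}
    (hv : v ∈ closure (EntropyPowerRegion n)) {i j k : Fin n} (hij : i ≠ j) (hik : i ≠ k)
    (hjk : j ≠ k) :
    v ⟨{i, j, k}, by simp⟩ * v ⟨{k}, by simp⟩ ≤ v ⟨{i, k}, by simp⟩ * v ⟨{j, k}, by simp⟩ := by
  have hcl : IsClosed {v : {S : Finset (Fin n) // S.Nonempty} → ℝ |
      v ⟨{i, j, k}, by simp⟩ * v ⟨{k}, by simp⟩ ≤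
        v ⟨{i, k}, by simp⟩ * v ⟨{j, k}, by simp⟩} := by
    apply isClosed_le <;> fun_prop
  exact closure_minimal (fun w hw => mem_imp hw hij hik hjk) hcl hv

/-- The box `[0, a 0] × [0, a 1]`. -/
def box (a : Fin 2 → ℝ) : Set (Fin 2 → ℝ) := Set.Icc 0 a

lemma measurableSet_box (a : Fin 2 → ℝ) : MeasurableSet (box a) := measurableSet_Icc

lemma volume_box (a : Fin 2 → ℝ) :
    (volume (box a)) = ENNReal.ofReal (a 0) * ENNReal.ofReal (a 1) := by
  rw [box, Real.volume_Icc_pi, Fin.prod_univ_two]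
  simp

lemma volume_box_toReal {a : Fin 2 → ℝ} (h : ∀ c, 0 < a c) :
    (volume (box a)).toReal = a 0 * a 1 := by
  rw [volume_box, toReal_mul, toReal_ofReal (h 0).le, toReal_ofReal (h 1).le]

lemma volume_box_ne_top (a : Fin 2 → ℝ) : (volume (box a)) ≠ ∞ := by
  rw [volume_box]
  exact mul_ne_top ofReal_ne_top ofReal_ne_top

lemma volume_box_ne_zero {a : Fin 2 → ℝ} (h : ∀ c, 0 < a c) : (volume (box a)) ≠ 0 := by
  rw [volume_box]
  simp [h]

/-- Uniform law on a box. -/
noncomputable def unif (a : Fin 2 → ℝ) : Measure (Fin 2 → ℝ) :=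
  (volume (box a))⁻¹ • volume.restrict (box a)

lemma unif_prob {a : Fin 2 → ℝ} (h : ∀ c, 0 < a c) : IsProbabilityMeasure (unif a) := by
  constructor
  rw [unif, Measure.smul_apply, Measure.restrict_apply_univ, smul_eq_mul]
  exact ENNReal.inv_mul_cancel (volume_box_ne_zero h) (volume_box_ne_top a)

lemma unif_le (a : Fin 2 → ℝ) : unif a ≤ (volume (box a))⁻¹ • volume := by
  unfold unif
  gcongr
  exact Measure.restrict_le_self

lemma unif_compl (a : Fin 2 → ℝ) : unif a (box a)ᶜ = 0 := by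
  rw [unif, Measure.smul_apply, Measure.restrict_apply (measurableSet_box a).compl]
  simp

lemma unif_eq_withDensity (a : Fin 2 → ℝ) :
    unif a = volume.withDensity ((box a).indicator (fun _ => (volume (box a))⁻¹)) := by
  rw [withDensity_indicator (measurableSet_box a), withDensity_const]
  rfl

lemma conv_unif_le {δ : ℝ} (hδ : 0 < δ) :
    unif ![1, δ] ∗ unif ![δ, 1] ≤ (1 : ℝ≥0∞) • (volume : Measure (Fin 2 → ℝ)) := by
  rw [unif_eq_withDensity, unif_eq_withDensity, conv_withDensity_eq_lconvolution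
    (measurable_const.indicator (measurableSet_box _))
    (measurable_const.indicator (measurableSet_box _)), one_smul]
  conv_rhs => rw [← withDensity_one (μ := (volume : Measure (Fin 2 → ℝ)))]
  apply withDensity_mono
  refine Filter.Eventually.of_forall fun u => ?_
  simp only [Pi.one_apply]
  rw [lconvolution_def]
  have hv1 : volume (box ![1, δ]) = ENNReal.ofReal δ := by
    rw [volume_box]; simp
  have hv2 : volume (box ![δ, 1]) = ENNReal.ofReal δ := by
    rw [volume_box]; simp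
  rw [hv1, hv2]
  have hsub : ∀ y : Fin 2 → ℝ, (box ![1, δ]).indicator (fun _ => (ENNReal.ofReal δ)⁻¹) y *
      (box ![δ, 1]).indicator (fun _ => (ENNReal.ofReal δ)⁻¹) (-y + u) ≤
      (Set.Icc ![u 0 - δ, 0] ![u 0, δ]).indicator
        (fun _ => (ENNReal.ofReal δ)⁻¹ * (ENNReal.ofReal δ)⁻¹) y := by
    intro y
    by_cases h1 : y ∈ box ![1, δ]
    · by_cases h2 : (-y + u) ∈ box ![δ, 1]
      · rw [Set.indicator_of_mem h1, Set.indicator_of_mem h2, Set.indicator_of_mem]
        simp only [box, Set.mem_Icc, Pi.le_def, Fin.forall_fin_two, Pi.zero_apply, Pi.add_apply,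
          Pi.neg_apply, Matrix.cons_val_zero, Matrix.cons_val_one] at h1 h2 ⊢
        refine ⟨⟨?_, ?_⟩, ⟨?_, ?_⟩⟩ <;> linarith [h1.1.1, h1.1.2, h1.2.1, h1.2.2, h2.1.1,
          h2.1.2, h2.2.1, h2.2.2]
      · rw [Set.indicator_of_notMem h2]
        simp
    · rw [Set.indicator_of_notMem h1]
      simp
  calc ∫⁻ y, (box ![1, δ]).indicator (fun _ => (ENNReal.ofReal δ)⁻¹) y *
      (box ![δ, 1]).indicator (fun _ => (ENNReal.ofReal δ)⁻¹) (-y + u)
      ≤ ∫⁻ y, (Set.Icc ![u 0 - δ, 0] ![u 0, δ]).indicator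
        (fun _ => (ENNReal.ofReal δ)⁻¹ * (ENNReal.ofReal δ)⁻¹) y := lintegral_mono hsub
    _ = (ENNReal.ofReal δ)⁻¹ * (ENNReal.ofReal δ)⁻¹ *
        volume (Set.Icc ![u 0 - δ, 0] ![u 0, δ]) := by
        rw [lintegral_indicator measurableSet_Icc, setLIntegral_const]
    _ = (ENNReal.ofReal δ)⁻¹ * (ENNReal.ofReal δ)⁻¹ * (ENNReal.ofReal δ * ENNReal.ofReal δ) := by
        rw [Real.volume_Icc_pi, Fin.prod_univ_two]
        simp
    _ = ((ENNReal.ofReal δ)⁻¹ * ENNReal.ofReal δ) * ((ENNReal.ofReal δ)⁻¹ * ENNReal.ofReal δ) := by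
        ring
    _ = 1 := by
        rw [ENNReal.inv_mul_cancel (by simpa using hδ) ofReal_ne_top, one_mul]
    _ ≤ 1 := le_refl 1

section ex
variable {n : ℕ} (a : Fin n → Fin 2 → ℝ)

/-- Product law of independent uniform laws on boxes. -/
noncomputable def boxP : Measure (Fin n → (Fin 2 → ℝ)) := Measure.pi (fun i => unif (a i))

/-- The coordinate vectors. -/
def boxX : Fin n → (Fin n → (Fin 2 → ℝ)) → (Fin 2 → ℝ) := fun i ω => ω i

lemma boxX_meas (i : Fin n) : Measurable (boxX i) := measurable_pi_apply i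

variable {a}

lemma boxP_prob (h : ∀ i c, 0 < a i c) : IsProbabilityMeasure (boxP a) := by
  have := fun i => unif_prob (h i)
  unfold boxP
  infer_instance

lemma boxX_indep (h : ∀ i c, 0 < a i c) : iIndepFun boxX (boxP a) := by
  have := fun i => unif_prob (h i)
  have := iIndepFun_pi (μ := fun i => unif (a i)) (X := fun i (x : Fin 2 → ℝ) => x)
    (fun i => aemeasurable_id)
  exact this

lemma boxX_law (h : ∀ i c, 0 < a i c) (i : Fin n) : (boxP a).map (boxX i) = unif (a i) := by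
  have := fun i => unif_prob (h i)
  exact (measurePreserving_eval (fun i => unif (a i)) i).map_eq

lemma boxSum_le (h : ∀ i c, 0 < a i c) {S : Finset (Fin n)} (hS : S.Nonempty) :
    ∃ c : ℝ≥0∞, c ≠ ∞ ∧ sumLaw (boxP a) boxX S ≤ c • (volume : Measure (Fin 2 → ℝ)) := by
  have := fun i => unif_prob (h i)
  have := boxP_prob h
  induction hS using Finset.Nonempty.cons_induction with
  | singleton i =>
    refine ⟨(volume (box (a i)))⁻¹, ENNReal.inv_ne_top.2 (volume_box_ne_zero (h i)), ?_⟩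
    rw [sumLaw_singleton, boxX_law h]
    exact unif_le _
  | cons i s his hs ih =>
    obtain ⟨c, hc, hle⟩ := ih
    refine ⟨c, hc, ?_⟩
    rw [Finset.cons_eq_insert, sumLaw_insert boxX_meas (boxX_indep h) his, boxX_law h]
    have := isProb (P := boxP a) (X := boxX) boxX_meas s
    exact conv_le hle

lemma boxSum_supp (h : ∀ i c, 0 < a i c) (S : Finset (Fin n)) :
    sumLaw (boxP a) boxX S (box (∑ i ∈ S, a i))ᶜ = 0 := by
  have := fun i => unif_prob (h i)
  have := boxP_prob h
  have hae : ∀ᵐ ω ∂(boxP a), ∀ i, boxX i ω ∈ box (a i) := by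
    rw [ae_all_iff]
    intro i
    have h1 : ∀ᵐ x ∂((boxP a).map (boxX i)), x ∈ box (a i) := by
      rw [boxX_law h]
      exact unif_compl (a i)
    exact ae_of_ae_map (boxX_meas i).aemeasurable h1
  have hm : Measurable (fun ω : Fin n → (Fin 2 → ℝ) => ∑ j ∈ S, boxX j ω) :=
    Finset.measurable_sum _ (fun j _ => boxX_meas j)
  rw [sumLaw, Measure.map_apply hm (measurableSet_box _).compl]
  have : ∀ᵐ ω ∂(boxP a), ∑ j ∈ S, boxX j ω ∈ box (∑ i ∈ S, a i) := by
    filter_upwards [hae] with ω hω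
    exact ⟨Finset.sum_nonneg fun i _ => (hω i).1, Finset.sum_le_sum fun i _ => (hω i).2⟩
  exact this

lemma boxSum_fin (h : ∀ i c, 0 < a i c) {S : Finset (Fin n)} (hS : S.Nonempty) :
    FiniteEntropy (sumLaw (boxP a) boxX S) := by
  have := boxP_prob h
  have := isProb (P := boxP a) (X := boxX) boxX_meas S
  obtain ⟨c, hc, hle⟩ := boxSum_le h hS
  exact finiteEntropy_of_le hc hle (measurableSet_box _) (volume_box_ne_top _) (boxSum_supp h S)

/-- The vector of entropy powers of the box example. -/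
noncomputable def boxV (a : Fin n → Fin 2 → ℝ) : {S : Finset (Fin n) // S.Nonempty} → ℝ :=
  fun S => entropyPower (sumLaw (boxP a) boxX S.1)

lemma boxV_mem (h : ∀ i c, 0 < a i c) : boxV a ∈ EntropyPowerRegion n := by
  simp only [EntropyPowerRegion, Set.mem_iUnion]
  exact ⟨2, by norm_num, (Fin n → (Fin 2 → ℝ)), inferInstance, boxP a, boxX, boxP_prob h,
    boxX_meas, boxX_indep h, fun S hS => boxSum_fin h hS, fun S => rfl⟩

lemma boxV_pos (S : {S : Finset (Fin n) // S.Nonempty}) : 0 < boxV a S := Real.exp_pos _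

lemma boxV_le (h : ∀ i c, 0 < a i c) {S : Finset (Fin n)} (hS : S.Nonempty) :
    boxV a ⟨S, hS⟩ ≤ (∑ i ∈ S, a i 0) * (∑ i ∈ S, a i 1) := by
  have := boxP_prob h
  have := isProb (P := boxP a) (X := boxX) boxX_meas S
  have hpos : ∀ c, 0 < (∑ i ∈ S, a i) c := by
    intro c
    rw [Finset.sum_apply]
    exact Finset.sum_pos (fun i _ => h i c) hS
  have h1 := diffEntropy_le (boxSum_fin h hS) (measurableSet_box (∑ i ∈ S, a i))
    (volume_box_ne_top _) (volume_box_ne_zero hpos) (boxSum_supp h S)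
  rw [volume_box_toReal hpos] at h1
  simp only [Finset.sum_apply] at h1 hpos
  have h2 : 0 < (∑ i ∈ S, a i 0) * (∑ i ∈ S, a i 1) := mul_pos (hpos 0) (hpos 1)
  show Real.exp (2 / ((2 : ℕ) : ℝ) * diffEntropy (sumLaw (boxP a) boxX S)) ≤ _
  rw [← Real.le_log_iff_exp_le h2]
  have : (2 : ℝ) / ((2 : ℕ) : ℝ) = 1 := by norm_num
  rw [this, one_mul]
  exact h1

lemma one_le_boxV (h : ∀ i c, 0 < a i c) {S : Finset (Fin n)} (hS : S.Nonempty)
    (hle : sumLaw (boxP a) boxX S ≤ (1 : ℝ≥0∞) • (volume : Measure (Fin 2 → ℝ))) :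
    1 ≤ boxV a ⟨S, hS⟩ := by
  have := boxP_prob h
  have := isProb (P := boxP a) (X := boxX) boxX_meas S
  have h1 := le_diffEntropy (boxSum_fin h hS) one_ne_top hle
  show 1 ≤ Real.exp (2 / ((2 : ℕ) : ℝ) * diffEntropy (sumLaw (boxP a) boxX S))
  have e : (2 : ℝ) / ((2 : ℕ) : ℝ) = 1 := by norm_num
  rw [e, one_mul]
  simp only [toReal_one, Real.log_one, neg_zero] at h1
  exact Real.one_le_exp h1

end ex

/-- **Main result.** For every `n ≥ 3` the closure of the entropy power region `Γ(n)` is not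
convex. -/
theorem result (n : ℕ) (hn : 3 ≤ n) : ¬ Convex ℝ (closure (EntropyPowerRegion n)) := by
  intro hconv
  set i : Fin n := ⟨0, by omega⟩ with hi
  set j : Fin n := ⟨1, by omega⟩ with hj
  set k : Fin n := ⟨2, by omega⟩ with hk
  have hij : i ≠ j := by simp [hi, hj]
  have hik : i ≠ k := by simp [hi, hk]
  have hjk : j ≠ k := by simp [hj, hk]
  -- first example
  set δ : ℝ := 1 / 20 with hδ
  set a : Fin n → Fin 2 → ℝ := fun l => if l = i then ![1, δ] else if l = j then ![δ, 1]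
    else ![δ, δ] with ha
  set b : Fin n → Fin 2 → ℝ := fun l => if l = k then ![1, 1] else ![δ, δ] with hb
  have ha0 : ∀ l c, 0 < a l c := by
    intro l c
    simp only [ha]
    split_ifs <;> fin_cases c <;> simp [hδ]
  have hb0 : ∀ l c, 0 < b l c := by
    intro l c
    simp only [hb]
    split_ifs <;> fin_cases c <;> simp [hδ]
  have := boxP_prob ha0
  have := boxP_prob hb0
  have hp := subset_closure (boxV_mem ha0)
  have hq := subset_closure (boxV_mem hb0)
  have hm := hconv hp hq (a := 1 / 2) (b := 1 / 2) (by norm_num) (by norm_num) (by norm_num)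
  have key := closure_imp hm hij hik hjk
  simp only [Pi.add_apply, Pi.smul_apply, smul_eq_mul] at key
  -- bounds for the first example
  have eai : a i = ![1, δ] := by simp [ha]
  have eaj : a j = ![δ, 1] := by simp [ha, hij.symm]
  have eak : a k = ![δ, δ] := by simp [ha, hik.symm, hjk.symm]
  have ebi : b i = ![δ, δ] := by simp [hb, hik]
  have ebj : b j = ![δ, δ] := by simp [hb, hjk]
  have ebk : b k = ![1, 1] := by simp [hb]
  have p3 : 0 < boxV a ⟨{k}, by simp⟩ := boxV_pos _
  have p13 : boxV a ⟨{i, k}, by simp⟩ ≤ (1 + δ) * (δ + δ) := by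
    refine (boxV_le ha0 (by simp)).trans (le_of_eq ?_)
    rw [Finset.sum_pair hik, Finset.sum_pair hik, eai, eak]
    simp
  have p23 : boxV a ⟨{j, k}, by simp⟩ ≤ (δ + δ) * (1 + δ) := by
    refine (boxV_le ha0 (by simp)).trans (le_of_eq ?_)
    rw [Finset.sum_pair hjk, Finset.sum_pair hjk, eaj, eak]
    simp
  have p123 : 1 ≤ boxV a ⟨{i, j, k}, by simp⟩ := by
    apply one_le_boxV ha0 
    rw [sumLaw_insert boxX_meas (boxX_indep ha0) (by simp [hij, hik]),
      sumLaw_insert boxX_meas (boxX_indep ha0) (by simpa using hjk), sumLaw_singleton,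
      boxX_law ha0, boxX_law ha0, boxX_law ha0]
    have := fun l => unif_prob (ha0 l)
    rw [← Measure.conv_assoc, Measure.conv_comm]
    have h1 : unif (a i) ∗ unif (a j) ≤ (1 : ℝ≥0∞) • (volume : Measure (Fin 2 → ℝ)) := by
      rw [eai, eaj]
      exact conv_unif_le (by norm_num [hδ])
    exact conv_le h1
  have q3' : unif (b k) ≤ (1 : ℝ≥0∞) • (volume : Measure (Fin 2 → ℝ)) := by
    refine (unif_le _).trans (le_of_eq ?_)
    rw [volume_box, ebk]
    simp
  have q3 : 1 ≤ boxV b ⟨{k}, by simp⟩ := by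
    apply one_le_boxV hb0 
    rw [sumLaw_singleton, boxX_law hb0]
    exact q3'
  have q123 : 1 ≤ boxV b ⟨{i, j, k}, by simp⟩ := by
    apply one_le_boxV hb0 
    rw [sumLaw_insert boxX_meas (boxX_indep hb0) (by simp [hij, hik]),
      sumLaw_insert boxX_meas (boxX_indep hb0) (by simpa using hjk), sumLaw_singleton,
      boxX_law hb0, boxX_law hb0, boxX_law hb0]
    have := fun l => unif_prob (hb0 l)
    have h1 : unif (b j) ∗ unif (b k) ≤ (1 : ℝ≥0∞) • (volume : Measure (Fin 2 → ℝ)) :=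
      conv_le q3'
    exact conv_le h1
  have q13 : boxV b ⟨{i, k}, by simp⟩ ≤ (δ + 1) * (δ + 1) := by
    refine (boxV_le hb0 (by simp)).trans (le_of_eq ?_)
    rw [Finset.sum_pair hik, Finset.sum_pair hik, ebi, ebk]
    simp
  have q23 : boxV b ⟨{j, k}, by simp⟩ ≤ (δ + 1) * (δ + 1) := by
    refine (boxV_le hb0 (by simp)).trans (le_of_eq ?_)
    rw [Finset.sum_pair hjk, Finset.sum_pair hjk, ebj, ebk]
    simp
  have p13' : 0 < boxV a ⟨{i, k}, by simp⟩ := boxV_pos _
  have p23' : 0 < boxV a ⟨{j, k}, by simp⟩ := boxV_pos _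
  have q13' : 0 < boxV b ⟨{i, k}, by simp⟩ := boxV_pos _
  have q23' : 0 < boxV b ⟨{j, k}, by simp⟩ := boxV_pos _
  rw [hδ] at p13 p23 q13 q23
  have l1 : (1 / 2 : ℝ) ≤ (1 / 2 * boxV a ⟨{i, j, k}, by simp⟩ + 1 / 2 * boxV b ⟨{i, j, k}, by simp⟩) *
      (1 / 2 * boxV a ⟨{k}, by simp⟩ + 1 / 2 * boxV b ⟨{k}, by simp⟩) := by
    have A : (1 : ℝ) ≤ (1 / 2 * boxV a ⟨{i, j, k}, by simp⟩ +
      1 / 2 * boxV b ⟨{i, j, k}, by simp⟩) := by linarith
    have B : (1 / 2 : ℝ) ≤ (1 / 2 * boxV a ⟨{k}, by simp⟩ + 1 / 2 * boxV b ⟨{k}, by simp⟩) := by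
      linarith
    nlinarith
  have u1 : (1 / 2 * boxV a ⟨{i, k}, by simp⟩ + 1 / 2 * boxV b ⟨{i, k}, by simp⟩) *
      (1 / 2 * boxV a ⟨{j, k}, by simp⟩ + 1 / 2 * boxV b ⟨{j, k}, by simp⟩) ≤ 0.61 * 0.61 := by
    have A : (1 / 2 * boxV a ⟨{i, k}, by simp⟩ + 1 / 2 * boxV b ⟨{i, k}, by simp⟩) ≤ 0.61 := by
      norm_num at p13 q13 ⊢
      linarith
    have B : (1 / 2 * boxV a ⟨{j, k}, by simp⟩ + 1 / 2 * boxV b ⟨{j, k}, by simp⟩) ≤ 0.61 := by
      norm_num at p23 q23 ⊢
      linarith
    gcongr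
  norm_num at u1
  linarith

end Pool.Agent.Results.MP_04c77c_pr.NotConvex
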